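import Pool.Agent.Helper9.UP.StC

/-!
# Project UP (MP_d466de), module BR: roots modulo the square of a prime
-/

set_option autoImplicit false

noncomputable section

namespace Pool.Agent.Helper80.UP

open Finset Polynomial
open Pool.Agent.Helper9.UP

theorem res_ne_BR {f : ℤ[X]} (hirr : Irreducible f) (hd : 1 ≤ f.natDegree) :
    resultant f f.derivative ≠ 0 := by
  have hprim : f.IsPrimitive := hirr.isPrimitive (by omega)
  have hQ : Irreducible (f.map (Int.castRingHom ℚ)) :=
    (IsPrimitive.Int.irreducible_iff_irreducible_map_cast hprim).1 hirr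
  have hsep : IsCoprime (f.map (Int.castRingHom ℚ)) (f.map (Int.castRingHom ℚ)).derivative :=
    hQ.separable
  have hinj : Function.Injective (Int.castRingHom ℚ) := RingHom.injective_int _
  have h1 : resultant (f.map (Int.castRingHom ℚ)) (f.map (Int.castRingHom ℚ)).derivative
      = (Int.castRingHom ℚ) (resultant f f.derivative) := by
    rw [derivative_map, natDegree_map_eq_of_injective hinj, natDegree_map_eq_of_injective hinj,
      resultant_map_map]
  intro h0
  rw [h0, map_zero, resultant_eq_zero_iff] at h1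
  exact h1.2 hsep

theorem coe_der_BR {Λ : ℝ} {f : ℤ[X]} (hf : Adm Λ f) (k : ℕ) :
    |((f.derivative.coeff k : ℤ) : ℝ)| ≤ (f.natDegree : ℝ) * Real.exp Λ := by
  rw [coeff_derivative]
  rcases le_or_gt (k + 1) f.natDegree with hk | hk
  · push_cast
    rw [abs_mul, mul_comm]
    have h1 : |((k : ℝ) + 1)| ≤ f.natDegree := by
      rw [abs_of_nonneg (by positivity)]
      exact_mod_cast hk
    exact mul_le_mul h1 (hf.coe (k + 1)) (abs_nonneg _) (Nat.cast_nonneg _)
  · rw [coeff_eq_zero_of_natDegree_lt hk]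
    simp only [zero_mul, Int.cast_zero, abs_zero]
    positivity

theorem res_le_BR {Λ : ℝ} {f : ℤ[X]} (hf : Adm Λ f) :
    |((resultant f f.derivative : ℤ) : ℝ)| ≤
      (2 * (f.natDegree : ℝ)) ^ (2 * f.natDegree) *
        ((f.natDegree : ℝ) * Real.exp Λ) ^ (2 * f.natDegree) := by
  have hd1 : (1 : ℝ) ≤ f.natDegree := by exact_mod_cast hf.deg
  have hΛ : 1 ≤ Λ := hd1.trans hf.degLe
  have hexp : 1 ≤ Real.exp Λ := Real.one_le_exp (by linarith)
  have hx1 : 1 ≤ (f.natDegree : ℝ) * Real.exp Λ := by nlinarith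
  set m := f.natDegree with hm
  set n := f.derivative.natDegree with hn
  have hnm : n ≤ m := natDegree_derivative_le f |>.trans (Nat.sub_le _ _)
  have hent : ∀ i j, (AbsoluteValue.abs : AbsoluteValue ℝ ℝ)
      (((Int.castRingHom ℝ).mapMatrix (sylvester f f.derivative m n)) i j)
      ≤ (m : ℝ) * Real.exp Λ := by
    intro i j
    have hcf : ∀ k, |((f.coeff k : ℤ) : ℝ)| ≤ (m : ℝ) * Real.exp Λ := fun k =>
      (hf.coe k).trans (by nlinarith [Real.exp_pos Λ])
    have hcd := coe_der_BR hf
    have h0 : (0 : ℝ) ≤ (m : ℝ) * Real.exp Λ := by linarith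
    rw [AbsoluteValue.abs_apply, RingHom.mapMatrix_apply, Matrix.map_apply]
    induction j using Fin.addCases with
    | left j =>
      simp only [sylvester, Matrix.of_apply, Fin.addCases_left]
      split_ifs
      · exact hcd _
      · simpa using h0
    | right j =>
      simp only [sylvester, Matrix.of_apply, Fin.addCases_right]
      split_ifs
      · exact hcf _
      · simpa using h0
  have hdet := Matrix.det_le (abv := (AbsoluteValue.abs : AbsoluteValue ℝ ℝ)) hent
  rw [← RingHom.map_det, Fintype.card_fin, AbsoluteValue.abs_apply] at hdet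
  have hres : resultant f f.derivative = (sylvester f f.derivative m n).det := rfl
  rw [hres]
  have h1 : |(((sylvester f f.derivative m n).det : ℤ) : ℝ)|
      ≤ ((m + n).factorial : ℝ) * ((m : ℝ) * Real.exp Λ) ^ (m + n) := by
    simpa [nsmul_eq_mul] using hdet
  refine h1.trans ?_
  apply mul_le_mul
  · have h2 : (m + n).factorial ≤ (2 * m) ^ (2 * m) :=
      (Nat.factorial_le_pow (m + n)).trans
        ((Nat.pow_le_pow_left (by omega) _).trans
          (Nat.pow_le_pow_right (by have := hf.deg; omega) (by omega)))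
    exact_mod_cast h2
  · exact pow_le_pow_right₀ hx1 (by omega)
  · positivity
  · positivity

theorem rho_BR {f : ℤ[X]} (hd : 1 ≤ f.natDegree) (p : ℕ) (hp : p.Prime)
    (hpR : ¬ p ∣ (resultant f f.derivative).natAbs) : rho f (p ^ 2) ≤ rho f p := by
  obtain ⟨P, Q, -, -, hPQ⟩ := exists_mul_add_mul_eq_C_resultant f f.derivative
    (m := f.natDegree) (n := f.derivative.natDegree) le_rfl le_rfl (Or.inl (by omega))
  have hpp : Prime (p : ℤ) := Nat.prime_iff_prime_int.1 hp
  have hnot : ∀ r : ℤ, (p : ℤ) ∣ f.eval r → ¬ (p : ℤ) ∣ f.derivative.eval r := by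
    intro r h1 h2
    apply hpR
    rw [← Int.natCast_dvd]
    have h3 := congrArg (fun g => g.eval r) hPQ
    simp only [eval_add, eval_mul, eval_C] at h3
    rw [← h3]
    exact dvd_add (Dvd.dvd.mul_right h1 _) (Dvd.dvd.mul_right h2 _)
  unfold rho
  apply Finset.card_le_card_of_injOn (fun r => r % p)
  · intro r hr
    rw [Finset.mem_coe, Finset.mem_filter, Finset.mem_range] at hr
    rw [Finset.mem_coe, Finset.mem_filter, Finset.mem_range]
    refine ⟨Nat.mod_lt _ hp.pos, ?_⟩
    have h1 : (p : ℤ) ∣ f.eval (r : ℤ) := by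
      refine dvd_trans ?_ hr.2
      push_cast
      exact dvd_pow_self _ (by norm_num)
    have h2 : (p : ℤ) ∣ (r : ℤ) - ((r % p : ℕ) : ℤ) := by
      push_cast
      exact Int.dvd_self_sub_emod
    have h3 := h2.trans (sub_dvd_eval_sub (r : ℤ) ((r % p : ℕ) : ℤ) f)
    exact (dvd_sub_right h1).1 h3
  · intro r hr s hs hrs
    rw [Finset.mem_coe, Finset.mem_filter, Finset.mem_range] at hr hs
    simp only at hrs
    have h1 : (p : ℤ) ∣ f.eval (r : ℤ) := by
      refine dvd_trans ?_ hr.2
      push_cast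
      exact dvd_pow_self _ (by norm_num)
    have hy : (p : ℤ) ∣ (s : ℤ) - r := Nat.modEq_iff_dvd.1 hrs
    obtain ⟨k, hk⟩ := binomExpansion f (r : ℤ) ((s : ℤ) - r)
    rw [add_sub_cancel] at hk
    have h4 : ((p ^ 2 : ℕ) : ℤ) ∣ f.derivative.eval (r : ℤ) * ((s : ℤ) - r) := by
      have h5 : ((p ^ 2 : ℕ) : ℤ) ∣ k * ((s : ℤ) - r) ^ 2 := by
        push_cast
        exact Dvd.dvd.mul_left (pow_dvd_pow_of_dvd hy 2) _
      have h6 : f.derivative.eval (r : ℤ) * ((s : ℤ) - r)
          = f.eval (s : ℤ) - f.eval (r : ℤ) - k * ((s : ℤ) - r) ^ 2 := by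
        rw [hk]
        ring
      rw [h6]
      exact dvd_sub (dvd_sub hs.2 hr.2) h5
    have h7 : IsCoprime ((p ^ 2 : ℕ) : ℤ) (f.derivative.eval (r : ℤ)) := by
      push_cast
      exact IsCoprime.pow_left ((Prime.coprime_iff_not_dvd hpp).2 (hnot _ h1))
    have h8 : ((p ^ 2 : ℕ) : ℤ) ∣ (s : ℤ) - r := h7.dvd_of_dvd_mul_left h4
    have h9 : (s : ℤ) - r = 0 := by
      apply Int.eq_zero_of_abs_lt_dvd h8
      rw [abs_lt]
      have := hr.1
      have := hs.1
      constructor <;> push_cast <;> zify at * <;> linarith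
    omega

theorem hBR : StBR := by
  refine ⟨8, 1, by norm_num, fun Λ hΛ f hf => ?_⟩
  refine ⟨(resultant f f.derivative).natAbs, ?_, ?_, fun p hp hpR => rho_BR hf.deg p hp hpR⟩
  · have := Int.natAbs_pos.2 (res_ne_BR hf.irr hf.deg)
    omega
  · have hd1 : (1 : ℝ) ≤ f.natDegree := by exact_mod_cast hf.deg
    have hne : ((resultant f f.derivative : ℤ) : ℝ) ≠ 0 := by
      exact_mod_cast res_ne_BR hf.irr hf.deg
    have h1 : (((resultant f f.derivative).natAbs : ℕ) : ℝ)
        = |((resultant f f.derivative : ℤ) : ℝ)| := by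
      rw [Nat.cast_natAbs, Int.cast_abs]
    rw [h1]
    have h2 := Real.log_le_log (abs_pos.2 hne) (res_le_BR hf)
    rw [Real.log_mul (by positivity) (by positivity), Real.log_pow, Real.log_pow,
      Real.log_mul (by positivity) (Real.exp_pos _).ne', Real.log_exp] at h2
    have hdΛ := hf.degLe
    have h3 : Real.log (2 * (f.natDegree : ℝ)) ≤ 2 * Λ := by
      have := Real.log_le_sub_one_of_pos (show (0 : ℝ) < 2 * (f.natDegree : ℝ) by positivity)
      linarith
    have h4 : Real.log (f.natDegree : ℝ) ≤ Λ := by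
      have := Real.log_le_sub_one_of_pos (show (0 : ℝ) < (f.natDegree : ℝ) by positivity)
      linarith
    refine h2.trans ?_
    push_cast
    have h5 : 2 * (f.natDegree : ℝ) * Real.log (2 * (f.natDegree : ℝ)) ≤ 2 * Λ * (2 * Λ) := by
      apply mul_le_mul (by linarith) h3 (Real.log_nonneg (by linarith)) (by linarith)
    have h6 : 2 * (f.natDegree : ℝ) * (Real.log (f.natDegree : ℝ) + Λ) ≤ 2 * Λ * (2 * Λ) := by
      apply mul_le_mul (by linarith) (by linarith) _ (by linarith)
      have := Real.log_nonneg hd1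
      linarith
    have h7 : Λ ^ 2 ≤ Λ ^ 3 := pow_le_pow_right₀ hΛ (by norm_num)
    nlinarith

end Pool.Agent.Helper80.UP
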