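import Pool.Agent.Helper9.UP.StS

/-!
# Project UP (MP_d466de), module EX: dyadic sums
-/

set_option autoImplicit false

noncomputable section

namespace Pool.Agent.Helper80.UP

open Finset Polynomial
open Pool.Agent.Helper9.UP
open Pool.Agent.Helper18.TR (idx Qi)

theorem exp_EX {x : ℝ} (h0 : 0 ≤ x) (h1 : x ≤ 1 / 2) : Real.exp (-(2 * x)) ≤ 1 - x := by
  have h2 : 1 + 2 * x ≤ Real.exp (2 * x) := by
    have := Real.add_one_le_exp (2 * x)
    linarith
  have h3 : 1 ≤ (1 - x) * Real.exp (2 * x) := by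
    calc (1 : ℝ) ≤ (1 - x) * (1 + 2 * x) := by nlinarith
      _ ≤ (1 - x) * Real.exp (2 * x) := mul_le_mul_of_nonneg_left h2 (by linarith)
  rw [Real.exp_neg, inv_le_iff_one_le_mul₀ (Real.exp_pos _)]
  exact h3

theorem gf_EX (hRO : StRO) {Λ : ℝ} {f : ℤ[X]} (hf : Adm Λ f) {p : ℕ} (hp : p.Prime) :
    0 ≤ gf f p ∧ gf f p ≤ 1 / 2 := by
  unfold gf
  split_ifs with h
  · constructor <;> norm_num
  · have h1 : 2 * f.natDegree < p := not_le.1 h
    have hpos : (0 : ℝ) < p := by exact_mod_cast hp.pos
    have h2 : rho f p ≤ f.natDegree := hRO Λ f hf p hp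
    refine ⟨by positivity, ?_⟩
    rw [div_le_iff₀ hpos]
    have h3 : ((2 * f.natDegree : ℕ) : ℝ) ≤ p := by exact_mod_cast h1.le
    have h4 : (rho f p : ℝ) ≤ f.natDegree := by exact_mod_cast h2
    push_cast at h3
    linarith

theorem sum_EX (f : ℤ[X]) (Y : ℕ) :
    ∑ p ∈ (range (Y + 1)).filter Nat.Prime, gf f p = ∑ p ∈ Qf f Y, gf f p := by
  symm
  apply Finset.sum_subset
  · intro p hp
    unfold Qf at hp
    rw [Finset.mem_filter, Finset.mem_Ioc] at hp
    rw [Finset.mem_filter, Finset.mem_range]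
    exact ⟨by omega, hp.2⟩
  · intro p hp hn
    rw [Finset.mem_filter, Finset.mem_range] at hp
    unfold gf
    rw [if_pos]
    by_contra h
    apply hn
    unfold Qf
    rw [Finset.mem_filter, Finset.mem_Ioc]
    exact ⟨⟨by omega, by omega⟩, hp.2⟩

/-- the number of small exponents -/
theorem card_EX (m : ℕ) (X : ℝ) (hX : 1 ≤ X) :
    (((range (m + 1)).filter (fun i => (2 : ℝ) ^ (m - i) < X)).card : ℝ) ≤ 2 * Real.log X + 1 := by
  set S := (range (m + 1)).filter (fun i => (2 : ℝ) ^ (m - i) < X) with hS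
  set T := (range (m + 1)).filter (fun j => (2 : ℝ) ^ j < X) with hT
  have h1 : S.card ≤ T.card := by
    apply Finset.card_le_card_of_injOn (fun i => m - i)
    · intro i hi
      rw [hS, Finset.mem_coe, Finset.mem_filter, Finset.mem_range] at hi
      rw [hT, Finset.mem_coe, Finset.mem_filter, Finset.mem_range]
      exact ⟨lt_of_le_of_lt (Nat.sub_le m i) (Nat.lt_succ_self m), hi.2⟩
    · intro i hi j hj hij
      rw [hS, Finset.mem_coe, Finset.mem_filter, Finset.mem_range] at hi hj
      simp only at hij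
      omega
  have h2 : T ⊆ range (⌊2 * Real.log X⌋₊ + 1) := by
    intro j hj
    rw [hT, Finset.mem_filter] at hj
    rw [Finset.mem_range, Nat.lt_succ_iff]
    apply Nat.le_floor
    have h3 : (j : ℝ) * Real.log 2 < Real.log X := by
      have := Real.log_lt_log (by positivity) hj.2
      rwa [Real.log_pow] at this
    have h4 : (1 / 2 : ℝ) < Real.log 2 := by
      have := Real.log_two_gt_d9
      linarith
    have h5 : (j : ℝ) * (1 / 2) ≤ (j : ℝ) * Real.log 2 :=
      mul_le_mul_of_nonneg_left h4.le (Nat.cast_nonneg j)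
    linarith
  have h6 : T.card ≤ ⌊2 * Real.log X⌋₊ + 1 := by
    have := Finset.card_le_card h2
    rwa [Finset.card_range] at this
  have h7 : (S.card : ℝ) ≤ (⌊2 * Real.log X⌋₊ : ℝ) + 1 := by
    exact_mod_cast h1.trans h6
  have h8 : (⌊2 * Real.log X⌋₊ : ℝ) ≤ 2 * Real.log X := by
    apply Nat.floor_le
    have := Real.log_nonneg hX
    linarith
  linarith

theorem hEX (hR : StRS) (hRO : StRO) : StEX := by
  obtain ⟨C, Λ₁, hC, hΛ₁, hR⟩ := hR
  have hlog : ∀ᶠ L : ℝ in Filter.atTop, 6 * C * Real.log L ≤ L / 4 := by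
    have h := Real.isLittleO_log_id_atTop.def (show (0 : ℝ) < 1 / (24 * C) by positivity)
    filter_upwards [h, Filter.eventually_ge_atTop (1 : ℝ)] with L hL hL1
    simp only [id_eq, Real.norm_eq_abs] at hL
    rw [abs_of_nonneg (Real.log_nonneg hL1), abs_of_nonneg (by linarith : (0 : ℝ) ≤ L)] at hL
    calc 6 * C * Real.log L ≤ 6 * C * (1 / (24 * C) * L) :=
          mul_le_mul_of_nonneg_left hL (by positivity)
      _ = L / 4 := by field_simp; norm_num
  obtain ⟨L₂, hL₂⟩ := Filter.eventually_atTop.1 hlog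
  refine ⟨max (max Λ₁ L₂) (max 10 (4 * (C * (2 * Real.log (2 * C) + 1)))), ?_, ?_⟩
  · exact le_trans hΛ₁ (le_max_of_le_left (le_max_left _ _))
  intro Λ hΛ f hf Y hY
  have hΛ1 : Λ₁ ≤ Λ := le_trans (le_max_of_le_left (le_max_left _ _)) hΛ
  have hΛ2 : L₂ ≤ Λ := le_trans (le_max_of_le_left (le_max_right _ _)) hΛ
  have hΛ3 : 10 ≤ Λ := le_trans (le_max_of_le_right (le_max_left _ _)) hΛ
  have hΛ4 : 4 * (C * (2 * Real.log (2 * C) + 1)) ≤ Λ :=
    le_trans (le_max_of_le_right (le_max_right _ _)) hΛ
  have hlogΛ := hL₂ Λ hΛ2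
  have main : ∑ p ∈ Qf f Y, gf f p ≤ Λ ^ 2 := by
    rcases lt_or_ge Y 2 with hY2 | hY2
    · have : Qf f Y = ∅ := by
        apply Finset.eq_empty_of_forall_notMem
        intro p hp
        unfold Qf at hp
        rw [Finset.mem_filter, Finset.mem_Ioc] at hp
        have := hp.2.two_le
        omega
      rw [this, Finset.sum_empty]
      positivity
    · set m := Nat.log 2 (Nat.log 2 Y) with hm
      have hlY : 1 ≤ Nat.log 2 Y := Nat.log_pos (by norm_num) hY2
      have hYpos : (0 : ℝ) < Y := by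
        have : 0 < Y := by omega
        exact_mod_cast this
      have hmaps : ∀ p ∈ Qf f Y, idx Y p ∈ range (m + 1) := by
        intro p hp
        unfold Qf at hp
        rw [Finset.mem_filter, Finset.mem_Ioc] at hp
        rw [Finset.mem_range, Nat.lt_succ_iff]
        unfold idx
        exact Nat.log_mono_right (Nat.log_anti_left (by norm_num) hp.2.two_le)
      have hsum : ∑ p ∈ Qf f Y, gf f p
          = ∑ i ∈ range (m + 1), ∑ p ∈ Qi Y (Qf f Y) i, gf f p :=
        (Finset.sum_fiberwise_of_maps_to hmaps _).symm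
      -- size of m
      have h2m : (2 : ℝ) ^ m * Real.log 2 ≤ Real.log Y := by
        have h1 : 2 ^ m ≤ Nat.log 2 Y := Nat.pow_log_le_self 2 (by omega)
        have h2 : 2 ^ (Nat.log 2 Y) ≤ Y := Nat.pow_log_le_self 2 (by omega)
        have h3 : ((2 : ℝ) ^ (Nat.log 2 Y)) ≤ Y := by exact_mod_cast h2
        have h4 := Real.log_le_log (by positivity) h3
        rw [Real.log_pow] at h4
        have h5 : ((2 : ℝ) ^ m) ≤ (Nat.log 2 Y : ℝ) := by exact_mod_cast h1
        exact le_trans (mul_le_mul_of_nonneg_right h5 (Real.log_nonneg (by norm_num))) h4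
      have hl2 : (1 / 2 : ℝ) < Real.log 2 := by
        have := Real.log_two_gt_d9
        linarith
      have hl2' : Real.log 2 < 1 := by
        have := Real.log_two_lt_d9
        linarith
      have hmΛ : (m : ℝ) ≤ 1 + Λ := by
        have h1 : (2 : ℝ) ^ m * (1 / 2) ≤ Real.exp (Λ / 8) :=
          le_trans (mul_le_mul_of_nonneg_left hl2.le (by positivity)) (h2m.trans hY)
        have h2 : (2 : ℝ) ^ m ≤ 2 * Real.exp (Λ / 8) := by linarith
        have h3 := Real.log_le_log (by positivity) h2
        rw [Real.log_pow, Real.log_mul (by norm_num) (Real.exp_pos _).ne', Real.log_exp] at h3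
        have h4 : (m : ℝ) * (1 / 2) ≤ (m : ℝ) * Real.log 2 :=
          mul_le_mul_of_nonneg_left hl2.le (Nat.cast_nonneg m)
        by_contra hcon
        push Not at hcon
        have h5 : 1 * Real.log 2 + Λ * Real.log 2 < (m : ℝ) * Real.log 2 := by
          rw [← add_mul]
          exact mul_lt_mul_of_pos_right hcon (by linarith)
        have h6 : Λ * (1 / 2) ≤ Λ * Real.log 2 := mul_le_mul_of_nonneg_left hl2.le (by linarith)
        linarith
      set Xb : ℝ := 2 * C * Λ ^ 3 with hXb
      have hΛ3' : (1 : ℝ) ≤ Λ ^ 3 := one_le_pow₀ (by linarith)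
      have hXb1 : 1 ≤ Xb := by
        rw [hXb]
        nlinarith
      have hterm : ∀ i ∈ range (m + 1), ∑ p ∈ Qi Y (Qf f Y) i, gf f p
          ≤ 4 + (if (2 : ℝ) ^ (m - i) < Xb then C * Λ else 0) := by
        intro i hi
        have him : i ≤ m := Nat.lt_succ_iff.1 (Finset.mem_range.1 hi)
        obtain ⟨r1, r2⟩ := hR Λ hΛ1 f hf Y i hY2 hY
        split_ifs with hlt
        · linarith
        · rw [add_zero]
          apply r2
          rw [not_lt] at hlt
          have h1 : (2 : ℝ) ^ m = 2 ^ (m - i) * 2 ^ i := by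
            rw [← pow_add]
            congr 1
            omega
          rw [le_div_iff₀ (by positivity)]
          have h2 : Xb * 2 ^ i * (1 / 2) ≤ Real.log Y := by
            calc Xb * 2 ^ i * (1 / 2) ≤ 2 ^ (m - i) * 2 ^ i * (1 / 2) := by
                  apply mul_le_mul_of_nonneg_right _ (by norm_num)
                  exact mul_le_mul_of_nonneg_right hlt (by positivity)
              _ = 2 ^ m * (1 / 2) := by rw [h1]
              _ ≤ 2 ^ m * Real.log 2 := mul_le_mul_of_nonneg_left hl2.le (by positivity)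
              _ ≤ Real.log Y := h2m
          rw [hXb] at h2
          linarith
      have hcard := card_EX m Xb hXb1
      have hlogXb : Real.log Xb = Real.log (2 * C) + 3 * Real.log Λ := by
        rw [hXb, Real.log_mul (by positivity) (by positivity), Real.log_pow]
        norm_num
      rw [hsum]
      calc ∑ i ∈ range (m + 1), ∑ p ∈ Qi Y (Qf f Y) i, gf f p
          ≤ ∑ i ∈ range (m + 1), (4 + (if (2 : ℝ) ^ (m - i) < Xb then C * Λ else 0)) :=
            Finset.sum_le_sum hterm
        _ = 4 * ((m : ℝ) + 1)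
            + (((range (m + 1)).filter (fun i => (2 : ℝ) ^ (m - i) < Xb)).card : ℝ) * (C * Λ) := by
            rw [Finset.sum_add_distrib, Finset.sum_const, Finset.card_range, ← Finset.sum_filter,
              Finset.sum_const, nsmul_eq_mul, nsmul_eq_mul]
            push_cast
            ring
        _ ≤ 4 * ((m : ℝ) + 1) + (2 * Real.log Xb + 1) * (C * Λ) := by
            have : 0 ≤ C * Λ := by positivity
            have := mul_le_mul_of_nonneg_right hcard this
            linarith
        _ ≤ 4 * (2 + Λ) + (C * (2 * Real.log (2 * C) + 1) + 6 * C * Real.log Λ) * Λ := by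
            rw [hlogXb]
            have : 4 * ((m : ℝ) + 1) ≤ 4 * (2 + Λ) := by linarith
            have e : (2 * (Real.log (2 * C) + 3 * Real.log Λ) + 1) * (C * Λ)
              = (C * (2 * Real.log (2 * C) + 1) + 6 * C * Real.log Λ) * Λ := by ring
            linarith
        _ ≤ 4 * (2 + Λ) + (Λ / 4 + Λ / 4) * Λ := by
            have : (C * (2 * Real.log (2 * C) + 1) + 6 * C * Real.log Λ) * Λ
              ≤ (Λ / 4 + Λ / 4) * Λ := by
              apply mul_le_mul_of_nonneg_right _ (by linarith)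
              linarith
            linarith
        _ ≤ Λ ^ 2 := by nlinarith
  refine ⟨by rw [sum_EX]; exact main, ?_⟩
  unfold VV
  calc Real.exp (-(2 * Λ ^ 2)) ≤ Real.exp (∑ p ∈ Qf f Y, -(2 * gf f p)) := by
        apply Real.exp_le_exp.2
        rw [Finset.sum_neg_distrib, ← Finset.mul_sum]
        linarith
    _ = ∏ p ∈ Qf f Y, Real.exp (-(2 * gf f p)) := Real.exp_sum _ _
    _ ≤ ∏ p ∈ Qf f Y, (1 - gf f p) := by
        apply Finset.prod_le_prod
        · intro p _
          exact (Real.exp_pos _).le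
        · intro p hp
          unfold Qf at hp
          rw [Finset.mem_filter] at hp
          obtain ⟨h1, h2⟩ := gf_EX hRO hf hp.2
          exact exp_EX h1 h2

end Pool.Agent.Helper80.UP
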